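import Mathlib
import Pool.Agent.TH380.NE.Main

set_option autoImplicit false

/-!
# Non-evasive balls that are not locally constructible, in every dimension at least four

The definitions (`IsCx`, `IsBall`, `NonEvasive`, `IsLC`) are in `Pool.Agent.H933R3.Defs`.  The
example is the join of a simplex with a 3-ball that has 13 vertices, 39 tetrahedra and a knotted
spanning edge.
-/

namespace Pool.Agent.Results.MP_9638d9_co.NonEvasiveNotLC

open Pool.Agent.H933R3 Pool.Agent.TH380.NE

/-- For every `d ≥ 4` there is a triangulated `d`-ball that is non-evasive but not locally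
constructible. -/
theorem result (d : ℕ) (hd : 4 ≤ d) : ∃ (n : ℕ) (K : Finset (Finset (Fin n))),
    IsCx K ∧ IsBall d K ∧ NonEvasive K ∧ ¬ IsLC d K :=
  ⟨d + 11, Kd d, isCx_Kd d, isBall_Kd d (by omega), nonEvasive_Kd d hd, not_isLC_Kd d (by omega)⟩

end Pool.Agent.Results.MP_9638d9_co.NonEvasiveNotLC
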